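import Mathlib

/-!
# The dynamic program: the lightest job splits the others by due dates
-/

set_option autoImplicit false

namespace Pool.Agent.H651Z.Sch

abbrev Job : Type := (ℕ × ℕ) × ℕ
abbrev St : Type := ℕ × ℕ × ℕ × ℕ × ℕ × ℕ
abbrev Ent : Type := St × List (Job × ℕ)

/-- doubled and capped due date -/
def dd (T : ℕ) (j : Job) : ℕ := min (2 * j.1.2) T

/-- cost of a job finishing at (doubled) time `t` -/
def jc (T : ℕ) (j : Job) (t : ℕ) : ℕ := j.1.1 * (t - dd T j)

def wc (T : ℕ) (w : List (Job × ℕ)) : ℕ := (w.map (fun x => jc T x.1 x.2)).sum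

def states (R : List ℕ) : List St := R ×ˢ (R ×ˢ (R ×ˢ (R ×ˢ (R ×ˢ R))))

def best (T : ℕ) (l : List Ent) : List Ent :=
  ((l.filter (fun x => l.all (fun y => decide (wc T x.2 ≤ wc T y.2)))).head?).elim []
    (fun x => [x])

def okb (P : ℕ) (s : St) : Bool :=
  decide (s.1 ≤ s.2.1) && decide (s.2.2.2.1 = s.2.2.1 + 1) && decide (s.2.2.2.2.1 ≤ s.2.2.2.2.2) &&
    decide (s.2.2.2.2.2 ≤ s.2.2.2.2.1 + P) && decide (s.2.2.2.1 * P ≤ s.2.2.2.2.1 + s.2.2.2.2.2)

def base (P : ℕ) (R : List ℕ) : List Ent := ((states R).filter (okb P)).map (fun s => (s, []))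

def compat (s a b : St) : Bool :=
  decide (a.1 = s.1) && decide (a.2.1 = b.1) && decide (b.2.1 = s.2.1) &&
    decide (a.2.2.1 = s.2.2.1) && decide (a.2.2.2.1 = b.2.2.1) && decide (b.2.2.2.1 = s.2.2.2.1) &&
    decide (a.2.2.2.2.1 = s.2.2.2.2.1) && decide (a.2.2.2.2.2 = b.2.2.2.2.1) &&
    decide (b.2.2.2.2.2 = s.2.2.2.2.2)

def inr (T lo hi : ℕ) (j : Job) : Bool := decide (lo ≤ dd T j) && decide (dd T j < hi)

def cands (T : ℕ) (tb : List Ent) (j : Job) (s : St) : List Ent :=
  if inr T s.1 s.2.1 j = true then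
    tb.flatMap (fun x => (tb.filter (fun y => compat s x.1 y.1)).map
      (fun y => (s, x.2 ++ (j, x.1.2.2.2.2.2) :: y.2)))
  else tb.filter (fun x => decide (x.1 = s))

def step (T : ℕ) (R : List ℕ) (tb : List Ent) (j : Job) : List Ent :=
  (states R).flatMap (fun s => best T (cands T tb j s))

def dp (P T : ℕ) (R : List ℕ) (H : List Job) : List Ent := H.foldl (step T R) (base P R)

/-- The constraints on consecutive completion times. -/
def Chain (P : ℕ) : ℕ → ℕ → List (Job × ℕ) → ℕ → ℕ → Prop
  | s, a, [], e, b => e = s + 1 ∧ a ≤ b ∧ b ≤ a + P ∧ e * P ≤ a + b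
  | s, a, x :: l, e, b => a ≤ x.2 ∧ x.2 ≤ a + P ∧ (s + 1) * P ≤ a + x.2 ∧ Chain P (s + 1) x.2 l e b

theorem Chain.append {P : ℕ} {j : Job} {k c e b : ℕ} {l₂ : List (Job × ℕ)}
    (h₂ : Chain P k c l₂ e b) : ∀ (l₁ : List (Job × ℕ)) (s a : ℕ), Chain P s a l₁ k c →
      Chain P s a (l₁ ++ (j, c) :: l₂) e b
  | [], s, a, h => by
    obtain ⟨h1, h2, h3, h4⟩ := h
    subst h1
    exact ⟨h2, h3, h4, h₂⟩
  | x :: l, s, a, h => ⟨h.1, h.2.1, h.2.2.1, Chain.append h₂ l _ _ h.2.2.2⟩

theorem mem_states {R : List ℕ} {s : St} : s ∈ states R ↔ s.1 ∈ R ∧ s.2.1 ∈ R ∧ s.2.2.1 ∈ R ∧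
    s.2.2.2.1 ∈ R ∧ s.2.2.2.2.1 ∈ R ∧ s.2.2.2.2.2 ∈ R := by
  obtain ⟨a, b, c, d, e, f⟩ := s
  simp [states, List.mem_product]

theorem best_sub {T : ℕ} {l : List Ent} {x : Ent} (h : x ∈ best T l) :
    x ∈ l ∧ ∀ y ∈ l, wc T x.2 ≤ wc T y.2 := by
  unfold best at h
  cases hh : (l.filter (fun x => l.all (fun y => decide (wc T x.2 ≤ wc T y.2)))).head? with
  | none => simp [hh] at h
  | some z =>
    rw [hh] at h
    simp only [Option.elim_some, List.mem_singleton] at h
    subst h
    have := List.mem_of_mem_head? (by rw [hh]; rfl : x ∈ _)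
    simpa using this

theorem best_length {T : ℕ} (l : List Ent) : (best T l).length ≤ 1 := by
  unfold best
  cases (l.filter (fun x => l.all (fun y => decide (wc T x.2 ≤ wc T y.2)))).head? <;> simp

theorem best_ex {T : ℕ} {l : List Ent} {y : Ent} (h : y ∈ l) :
    ∃ x ∈ best T l, wc T x.2 ≤ wc T y.2 := by
  classical
  obtain ⟨z, hz, hz'⟩ : ∃ z ∈ l, ∀ y ∈ l, wc T z.2 ≤ wc T y.2 := by
    obtain ⟨z, hz, hz'⟩ := Finset.exists_min_image l.toFinset (fun x => wc T x.2)
      ⟨y, List.mem_toFinset.2 h⟩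
    exact ⟨z, List.mem_toFinset.1 hz, fun y hy => hz' y (List.mem_toFinset.2 hy)⟩
  have hne : z ∈ l.filter (fun x => l.all (fun y => decide (wc T x.2 ≤ wc T y.2))) := by
    simpa using ⟨hz, fun a b c d e f g hh => hz' _ hh⟩
  cases hh : (l.filter (fun x => l.all (fun y => decide (wc T x.2 ≤ wc T y.2)))).head? with
  | none =>
    rw [List.head?_eq_none_iff] at hh
    rw [hh] at hne
    simp at hne
  | some x =>
    have hx : x ∈ best T l := by unfold best; rw [hh]; simp
    exact ⟨x, hx, (best_sub hx).2 y h⟩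

/-- Soundness invariant. -/
def Sound (P T : ℕ) (R : List ℕ) (H : List Job) (x : Ent) : Prop :=
  x.1 ∈ states R ∧ x.1.1 ≤ x.1.2.1 ∧ (x.2.map Prod.fst).Perm (H.filter (inr T x.1.1 x.1.2.1)) ∧
    Chain P x.1.2.2.1 x.1.2.2.2.2.1 x.2 x.1.2.2.2.1 x.1.2.2.2.2.2 ∧ ∀ y ∈ x.2, y.2 ∈ R

theorem filter_split (T lo m hi : ℕ) (h1 : lo ≤ m) (h2 : m ≤ hi) (H : List Job) :
    (H.filter (inr T lo m) ++ H.filter (inr T m hi)).Perm (H.filter (inr T lo hi)) := by
  have h := List.filter_append_perm (fun j => decide (dd T j < m)) (H.filter (inr T lo hi))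
  rw [List.filter_filter, List.filter_filter] at h
  have e1 : H.filter (inr T lo m) =
      H.filter (fun a => decide (dd T a < m) && inr T lo hi a) := by
    apply List.filter_congr
    intro j _
    unfold inr
    by_cases a : lo ≤ dd T j <;> by_cases b : dd T j < m <;> by_cases c : dd T j < hi <;>
      simp [a, b, c] <;> omega
  have e2 : H.filter (inr T m hi) =
      H.filter (fun a => (!decide (dd T a < m)) && inr T lo hi a) := by
    apply List.filter_congr
    intro j _
    unfold inr
    by_cases a : lo ≤ dd T j <;> by_cases b : dd T j < m <;> by_cases c : dd T j < hi <;>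
      simp [a, b, c] <;> omega
  rw [e1, e2]
  exact h

theorem sound_base {P T : ℕ} {R : List ℕ} {x : Ent} (h : x ∈ base P R) : Sound P T R [] x := by
  unfold base at h
  obtain ⟨s, hs, rfl⟩ := List.mem_map.1 h
  obtain ⟨h1, h2⟩ := List.mem_filter.1 hs
  simp only [okb, Bool.and_eq_true, decide_eq_true_eq] at h2
  exact ⟨h1, h2.1.1.1.1, by simp, ⟨h2.1.1.1.2, h2.1.1.2, h2.1.2, h2.2⟩, by simp⟩

theorem sound_step {P T : ℕ} {R : List ℕ} {H : List Job} {tb : List Ent} (j : Job)
    (h : ∀ x ∈ tb, Sound P T R H x) : ∀ x ∈ step T R tb j, Sound P T R (H ++ [j]) x := by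
  intro x hx
  obtain ⟨s, hs, hx⟩ := List.mem_flatMap.1 hx
  have hx := (best_sub hx).1
  unfold cands at hx
  split_ifs at hx with hj
  · obtain ⟨a, ha, hx⟩ := List.mem_flatMap.1 hx
    obtain ⟨b, hb, rfl⟩ := List.mem_map.1 hx
    obtain ⟨hb, hc⟩ := List.mem_filter.1 hb
    simp only [compat, Bool.and_eq_true, decide_eq_true_eq] at hc
    obtain ⟨⟨⟨⟨⟨⟨⟨⟨c1, c2⟩, c3⟩, c4⟩, c5⟩, c6⟩, c7⟩, c8⟩, c9⟩ := hc
    obtain ⟨a1, a2, a3, a4, a5⟩ := h a ha
    obtain ⟨b1, b2, b3, b4, b5⟩ := h b hb
    refine ⟨hs, by dsimp only; omega, ?_, ?_, ?_⟩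
    · dsimp only
      rw [List.filter_append, List.map_append, List.map_cons]
      have e : [j].filter (inr T s.1 s.2.1) = [j] := by simp [hj]
      rw [e]
      have h3 := filter_split T s.1 b.1.1 s.2.1 (by omega) (by omega) H
      rw [c1, c2] at a3
      rw [c3] at b3
      refine List.perm_middle.trans (List.Perm.trans ?_ (List.perm_append_singleton _ _).symm)
      exact List.Perm.cons _ ((a3.append b3).trans h3)
    · dsimp only
      rw [c4, c7] at a4
      rw [c6, c9, ← c5, ← c8] at b4
      exact Chain.append b4 _ _ _ a4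
    · intro y hy
      rcases List.mem_append.1 hy with hy | hy
      · exact a5 y hy
      · rcases List.mem_cons.1 hy with hy | hy
        · rw [hy]
          exact (mem_states.1 a1).2.2.2.2.2
        · exact b5 y hy
  · obtain ⟨hx, he⟩ := List.mem_filter.1 hx
    have he : x.1 = s := by simpa using he
    obtain ⟨a1, a2, a3, a4, a5⟩ := h x hx
    refine ⟨a1, a2, ?_, a4, a5⟩
    rw [List.filter_append]
    have e : [j].filter (inr T x.1.1 x.1.2.1) = [] := by rw [he]; simp [hj]
    rw [e, List.append_nil]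
    exact a3

theorem sound_dp (P T : ℕ) (R : List ℕ) (H : List Job) : ∀ x ∈ dp P T R H, Sound P T R H x := by
  induction H using List.reverseRecOn with
  | nil => exact fun x hx => sound_base hx
  | append_singleton H j ih =>
    unfold dp
    rw [List.foldl_append]
    exact sound_step j ih

theorem length_dp (P T : ℕ) (R : List ℕ) (H : List Job) :
    (dp P T R H).length ≤ (states R).length := by
  induction H using List.reverseRecOn with
  | nil =>
    unfold dp base
    simpa using List.length_filter_le _ _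
  | append_singleton H j ih =>
    unfold dp
    rw [List.foldl_append]
    simp only [List.foldl_cons, List.foldl_nil]
    generalize List.foldl (step T R) (base P R) H = tb
    unfold step
    generalize states R = L
    induction L with
    | nil => simp
    | cons s L ih2 =>
      rw [List.flatMap_cons, List.length_append, List.length_cons]
      have := best_length (T := T) (cands T tb j s)
      omega

/-! ### Completeness -/

/-- cost of an ordering of jobs, starting at position `s` -/
def cst (T : ℕ) (t : ℕ → ℕ) : ℕ → List Job → ℕ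
  | _, [] => 0
  | s, j :: l => jc T j (t s) + cst T t (s + 1) l

theorem cst_append (T : ℕ) (t : ℕ → ℕ) : ∀ (l₁ l₂ : List Job) (s : ℕ),
    cst T t s (l₁ ++ l₂) = cst T t s l₁ + cst T t (s + l₁.length) l₂
  | [], l₂, s => by simp [cst]
  | j :: l, l₂, s => by
    simp only [List.cons_append, cst, List.length_cons]
    rw [cst_append T t l l₂, show s + 1 + l.length = s + (l.length + 1) by omega, add_assoc]

theorem jc_mono (T : ℕ) (j : Job) {a b : ℕ} (h : a ≤ b) : jc T j a ≤ jc T j b :=
  Nat.mul_le_mul_left _ (by omega)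

theorem cst_filter (T : ℕ) {t : ℕ → ℕ} (ht : Monotone t) (q : Job → Bool) :
    ∀ (l : List Job) (s s' : ℕ), s' ≤ s → cst T t s' (l.filter q) ≤ cst T t s l
  | [], _, _, _ => by simp [cst]
  | j :: l, s, s', h => by
    by_cases hq : q j = true
    · rw [List.filter_cons_of_pos hq]
      exact Nat.add_le_add (jc_mono T j (ht h)) (cst_filter T ht q l _ _ (by omega))
    · rw [List.filter_cons_of_neg hq]
      exact (cst_filter T ht q l (s + 1) s' (by omega)).trans (Nat.le_add_left _ _)

theorem cst_zero (T : ℕ) {t : ℕ → ℕ} (ht : Monotone t) (u : ℕ) :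
    ∀ (l : List Job) (s : ℕ), s + l.length ≤ u + 1 → (∀ j ∈ l, t u ≤ dd T j) → cst T t s l = 0
  | [], _, _, _ => rfl
  | j :: l, s, h, h' => by
    simp only [List.length_cons] at h
    have h1 : t s ≤ t u := ht (by omega)
    have h2 := h' j (by simp)
    have h3 : jc T j (t s) = 0 := by
      unfold jc
      rw [show t s - dd T j = 0 by omega, mul_zero]
    simp only [cst]
    rw [h3, cst_zero T ht u l (s + 1) (by omega) (fun i hi => h' i (by simp [hi]))]

theorem swap_le (T : ℕ) {i j : Job} {a b : ℕ} (hab : a ≤ b) (hw : j.1.1 ≤ i.1.1)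
    (hd : dd T i ≤ max a (dd T j)) : jc T i a + jc T j b ≤ jc T j a + jc T i b := by
  unfold jc
  obtain ⟨u, hu⟩ : ∃ u, b - dd T j = (a - dd T j) + u := ⟨b - dd T j - (a - dd T j), by omega⟩
  obtain ⟨v, hv⟩ : ∃ v, b - dd T i = (a - dd T i) + (u + v) :=
    ⟨b - dd T i - (a - dd T i) - u, by omega⟩
  rw [hu, hv]
  have := Nat.mul_le_mul_right u hw
  nlinarith

theorem move_late (T : ℕ) {t : ℕ → ℕ} (ht : Monotone t) (j : Job) (s : ℕ) :
    ∀ (m : ℕ) (B A : List Job), A.length ≤ m → (∀ a ∈ A, j.1.1 ≤ a.1.1) →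
      ∃ B' A' : List Job, (B' ++ A').Perm (B ++ A) ∧
        cst T t s (B' ++ j :: A') ≤ cst T t s (B ++ j :: A) ∧
        ∀ a ∈ A', max (t (s + B'.length)) (dd T j) < dd T a := by
  intro m
  induction m with
  | zero =>
    intro B A hA _
    have : A = [] := List.length_eq_zero_iff.1 (by omega)
    subst this
    exact ⟨B, [], List.Perm.refl _, le_rfl, by simp⟩
  | succ m ih =>
    intro B A hA hw
    by_cases h : ∀ a ∈ A, max (t (s + B.length)) (dd T j) < dd T a
    · exact ⟨B, A, List.Perm.refl _, le_rfl, h⟩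
    · push Not at h
      obtain ⟨a, ha, hd⟩ := h
      obtain ⟨A₁, A₂, rfl⟩ := List.append_of_mem ha
      obtain ⟨B', A', h1, h2, h3⟩ := ih (B ++ a :: A₁) A₂ (by simp at hA; omega)
        (fun x hx => hw x (by simp [hx]))
      refine ⟨B', A', h1.trans ?_, h2.trans ?_, h3⟩
      · rw [List.append_assoc]
        exact List.Perm.append_left _ List.perm_middle.symm
      · have e := swap_le T (i := a) (j := j) (a := t (s + B.length))
          (b := t (s + B.length + 1 + A₁.length)) (ht (by omega)) (hw a (by simp)) hd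
        rw [List.append_assoc, List.cons_append, cst_append, cst_append]
        simp only [cst]
        rw [cst_append, cst_append]
        simp only [cst]
        omega

theorem exchange (T : ℕ) {t : ℕ → ℕ} (ht : Monotone t) (j : Job) (s : ℕ) (B A : List Job)
    (hw : ∀ a ∈ A, j.1.1 ≤ a.1.1) :
    ∃ (τ : ℕ) (B' A' : List Job), dd T j < τ ∧ (B' ++ A').Perm (B ++ A) ∧
      cst T t s (B' ++ j :: A') ≤ cst T t s (B ++ j :: A) ∧
      (∀ b ∈ B', dd T b < τ) ∧ ∀ a ∈ A', τ ≤ dd T a := by
  obtain ⟨B₁, A₁, h1, h2, h3⟩ := move_late T ht j s A.length B A le_rfl hw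
  set τ := max (t (s + B₁.length)) (dd T j) with hτ
  have hp := List.filter_append_perm (fun b => decide (dd T b ≤ τ)) B₁
  have hl := hp.length_eq
  rw [List.length_append] at hl
  refine ⟨τ + 1, B₁.filter (fun b => decide (dd T b ≤ τ)),
    B₁.filter (fun b => !decide (dd T b ≤ τ)) ++ A₁, by omega, ?_, le_trans ?_ h2, ?_, ?_⟩
  · rw [← List.append_assoc]
    exact (hp.append_right _).trans h1
  · rw [cst_append, cst_append]
    simp only [cst]
    rw [cst_append]
    have e1 := cst_filter T ht (fun b => decide (dd T b ≤ τ)) B₁ s s le_rfl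
    have e2 := jc_mono T j (ht (show s + (B₁.filter (fun b => decide (dd T b ≤ τ))).length ≤
      s + B₁.length by omega))
    have e3 := cst_zero T ht (s + B₁.length) (B₁.filter (fun b => !decide (dd T b ≤ τ)))
      (s + (B₁.filter (fun b => decide (dd T b ≤ τ))).length + 1) (by omega) (by
        intro b hb
        have := (List.mem_filter.1 hb).2
        simp only [Bool.not_eq_eq_eq_not, Bool.not_true, decide_eq_false_iff_not] at this
        omega)
    have e4 : s + (B₁.filter (fun b => decide (dd T b ≤ τ))).length + 1 +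
      (B₁.filter (fun b => !decide (dd T b ≤ τ))).length = s + B₁.length + 1 := by omega
    rw [e4]
    omega
  · intro b hb
    have := (List.mem_filter.1 hb).2
    simp only [decide_eq_true_eq] at this
    omega
  · intro a ha
    rcases List.mem_append.1 ha with ha | ha
    · have := (List.mem_filter.1 ha).2
      simp only [Bool.not_eq_eq_eq_not, Bool.not_true, decide_eq_false_iff_not] at this
      omega
    · have := h3 a ha
      omega

theorem wc_append (T : ℕ) (l₁ l₂ : List (Job × ℕ)) (x : Job × ℕ) :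
    wc T (l₁ ++ x :: l₂) = wc T l₁ + (jc T x.1 x.2 + wc T l₂) := by
  simp [wc]

/-- The admissible sequences of completion times. -/
structure Good (P : ℕ) (t : ℕ → ℕ) : Prop where
  zero : t 0 = 0
  le : ∀ k, t k ≤ t (k + 1)
  le' : ∀ k, t (k + 1) ≤ t k + P
  sum : ∀ k, (k + 1) * P ≤ t k + t (k + 1)

theorem Good.mono {P : ℕ} {t : ℕ → ℕ} (h : Good P t) : Monotone t :=
  monotone_nat_of_le_succ h.le

theorem Good.bound {P : ℕ} {t : ℕ → ℕ} (h : Good P t) (k : ℕ) : t k ≤ k * P := by
  induction k with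
  | zero => simp [h.zero]
  | succ k ih => have := h.le' k; rw [add_mul]; omega

/-- Completeness invariant. -/
def Compl (T M N : ℕ) (t : ℕ → ℕ) (H : List Job) (tb : List Ent) : Prop :=
  ∀ (lo hi s : ℕ) (js : List Job), lo ≤ hi → hi < M → s + js.length + 1 ≤ N →
    js.Perm (H.filter (inr T lo hi)) →
    ∃ x ∈ tb, x.1 = (lo, hi, s, s + js.length + 1, t s, t (s + js.length + 1)) ∧
      wc T x.2 ≤ cst T t (s + 1) js

theorem st_mem {P M N : ℕ} {t : ℕ → ℕ} (ht : Good P t) (hN : N < M) (hN' : N * P < M)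
    {lo hi s e : ℕ} (h1 : lo ≤ hi) (h2 : hi < M) (h3 : s ≤ e) (h4 : e ≤ N) :
    ((lo, hi, s, e, t s, t e) : St) ∈ states (List.range M) := by
  have a1 := ht.bound e
  have a2 := ht.mono h3
  have a3 : e * P ≤ N * P := Nat.mul_le_mul_right _ h4
  rw [mem_states]
  simp only [List.mem_range]
  omega

theorem compl_base {P T M N : ℕ} {t : ℕ → ℕ} (ht : Good P t) (hN : N < M) (hN' : N * P < M) :
    Compl T M N t [] (base P (List.range M)) := by
  intro lo hi s js h1 h2 h3 h4
  have : js = [] := by simpa using h4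
  subst this
  refine ⟨((lo, hi, s, s + 1, t s, t (s + 1)), []), ?_, rfl, by simp [wc, cst]⟩
  refine List.mem_map.2 ⟨_, List.mem_filter.2 ⟨st_mem ht hN hN' h1 h2 (by omega) h3, ?_⟩, rfl⟩
  simp [okb, h1, ht.le s, ht.le' s, ht.sum s]

theorem perm_filter_of {T lo hi lo' hi' : ℕ} {H B A : List Job}
    (h : (B ++ A).Perm (H.filter (inr T lo hi))) (h1 : lo ≤ lo') (h2 : hi' ≤ hi)
    (hB : ∀ b ∈ B, inr T lo' hi' b = true) (hA : ∀ b ∈ A, ¬ inr T lo' hi' b = true) :
    B.Perm (H.filter (inr T lo' hi')) := by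
  have h3 := h.filter (inr T lo' hi')
  rw [List.filter_append, List.filter_eq_self.2 hB, List.filter_eq_nil_iff.2 hA, List.append_nil,
    List.filter_filter] at h3
  refine h3.trans (List.Perm.of_eq (List.filter_congr ?_))
  intro j _
  unfold inr
  by_cases a : lo ≤ dd T j <;> by_cases b : dd T j < hi <;> by_cases c : lo' ≤ dd T j <;>
    by_cases d : dd T j < hi' <;> simp [a, b, c, d] <;> omega

theorem compl_step {P T M N : ℕ} {t : ℕ → ℕ} (ht : Good P t) (hN : N < M) (hN' : N * P < M)
    {H : List Job} {tb : List Ent} (j : Job) (hw : ∀ a ∈ H, j.1.1 ≤ a.1.1)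
    (h : Compl T M N t H tb) : Compl T M N t (H ++ [j]) (step T (List.range M) tb j) := by
  intro lo hi s js h1 h2 h3 h4
  have hs := st_mem ht hN hN' h1 h2 (show s ≤ s + js.length + 1 by omega) h3
  suffices hh : ∃ y ∈ cands T tb j (lo, hi, s, s + js.length + 1, t s, t (s + js.length + 1)),
      wc T y.2 ≤ cst T t (s + 1) js by
    obtain ⟨y, hy, hy'⟩ := hh
    obtain ⟨x, hx, hx'⟩ := best_ex (T := T) hy
    refine ⟨x, List.mem_flatMap.2 ⟨_, hs, hx⟩, ?_, hx'.trans hy'⟩
    have hx2 := (best_sub hx).1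
    unfold cands at hx2
    split_ifs at hx2 with hj
    · obtain ⟨a, -, hx2⟩ := List.mem_flatMap.1 hx2
      obtain ⟨b, -, rfl⟩ := List.mem_map.1 hx2
      rfl
    · simpa using (List.mem_filter.1 hx2).2
  rw [List.filter_append] at h4
  unfold cands
  by_cases hj : inr T lo hi j = true
  · rw [if_pos hj]
    have e : [j].filter (inr T lo hi) = [j] := by simp [hj]
    rw [e] at h4
    have hjm : j ∈ js := h4.symm.subset (by simp)
    obtain ⟨B, A, rfl⟩ := List.append_of_mem hjm
    have h5 : (B ++ A).Perm (H.filter (inr T lo hi)) :=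
      ((List.perm_middle.symm.trans h4).trans (List.perm_append_singleton _ _)).cons_inv
    obtain ⟨τ, B', A', a1, a2, a3, a4, a5⟩ := exchange T ht.mono j (s + 1) B A
      (fun a ha => hw a (List.mem_filter.1 (h5.subset (by simp [ha]))).1)
    have h6 := a2.trans h5
    have hin : ∀ b ∈ B' ++ A', lo ≤ dd T b ∧ dd T b < hi := by
      intro b hb
      simpa [inr] using (List.mem_filter.1 (h6.subset hb)).2
    have hj' : lo ≤ dd T j ∧ dd T j < hi := by simpa [inr] using hj
    have hl := a2.length_eq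
    simp only [List.length_append, List.length_cons] at hl h3 ⊢
    have p1 : B'.Perm (H.filter (inr T lo (min τ hi))) := by
      refine perm_filter_of h6 le_rfl (min_le_right _ _) ?_ ?_
      · intro b hb
        have := hin b (by simp [hb])
        have := a4 b hb
        simp only [inr, Bool.and_eq_true, decide_eq_true_eq]
        omega
      · intro b hb
        have := hin b (by simp [hb])
        have := a5 b hb
        simp only [inr, Bool.and_eq_true, decide_eq_true_eq]
        omega
    have p2 : A'.Perm (H.filter (inr T (min τ hi) hi)) := by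
      refine perm_filter_of (List.perm_append_comm.trans h6) (by omega) le_rfl ?_ ?_
      · intro b hb
        have := hin b (by simp [hb])
        have := a5 b hb
        simp only [inr, Bool.and_eq_true, decide_eq_true_eq]
        omega
      · intro b hb
        have := hin b (by simp [hb])
        have := a4 b hb
        simp only [inr, Bool.and_eq_true, decide_eq_true_eq]
        omega
    obtain ⟨x, hx, hx1, hx2⟩ := h lo (min τ hi) s B' (by omega) (by omega) (by omega) p1
    obtain ⟨y, hy, hy1, hy2⟩ := h (min τ hi) hi (s + B'.length + 1) A' (by omega) h2 (by omega) p2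
    refine ⟨_, List.mem_flatMap.2 ⟨x, hx, List.mem_map.2 ⟨y, List.mem_filter.2 ⟨hy, ?_⟩, rfl⟩⟩, ?_⟩
    · have e2 : s + B'.length + 1 + A'.length + 1 = s + (B.length + (A.length + 1)) + 1 := by omega
      rw [hx1, hy1, e2]
      simp [compat]
    · refine le_trans ?_ a3
      rw [wc_append, cst_append]
      simp only [cst]
      rw [hx1]
      dsimp only
      have e3 : s + 1 + B'.length = s + B'.length + 1 := by omega
      rw [e3]
      omega
  · rw [if_neg hj]
    have e : [j].filter (inr T lo hi) = [] := by simp [hj]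
    rw [e, List.append_nil] at h4
    obtain ⟨x, hx, hx1, hx2⟩ := h lo hi s js h1 h2 h3 h4
    exact ⟨x, List.mem_filter.2 ⟨hx, by simp [hx1]⟩, hx2⟩

theorem compl_dp {P T M N : ℕ} {t : ℕ → ℕ} (ht : Good P t) (hN : N < M) (hN' : N * P < M)
    (H : List Job) (hH : H.Pairwise (fun a b => b.1.1 ≤ a.1.1)) :
    Compl T M N t H (dp P T (List.range M) H) := by
  induction H using List.reverseRecOn with
  | nil => exact compl_base ht hN hN'
  | append_singleton H j ih =>
    unfold dp
    rw [List.foldl_append]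
    rw [List.pairwise_append] at hH
    exact compl_step ht hN hN' j (fun a ha => hH.2.2 a ha j (by simp)) (ih hH.1)

/-! ### Sorting by weight -/

def ins (l : List Job) (j : Job) : List Job :=
  l.filter (fun b => decide (j.1.1 ≤ b.1.1)) ++ j :: l.filter (fun b => !decide (j.1.1 ≤ b.1.1))

def srt (l : List Job) : List Job := l.foldl ins []

theorem srt_spec (l : List Job) :
    (srt l).Perm l ∧ (srt l).Pairwise (fun a b => b.1.1 ≤ a.1.1) := by
  induction l using List.reverseRecOn with
  | nil => simp [srt]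
  | append_singleton l j ih =>
    have e : srt (l ++ [j]) = ins (srt l) j := by simp [srt]
    rw [e]
    unfold ins
    refine ⟨?_, ?_⟩
    · refine List.perm_middle.trans (List.Perm.trans ?_ (List.perm_append_singleton _ _).symm)
      exact List.Perm.cons _ ((List.filter_append_perm _ _).trans ih.1)
    · rw [List.pairwise_append, List.pairwise_cons]
      refine ⟨ih.2.filter _, ⟨?_, ih.2.filter _⟩, ?_⟩
      · intro a ha
        have := (List.mem_filter.1 ha).2
        simp at this
        omega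
      · intro a ha b hb
        have h1 := (List.mem_filter.1 ha).2
        simp only [decide_eq_true_eq] at h1
        rcases List.mem_cons.1 hb with hb | hb
        · rw [hb]; exact h1
        · have := (List.mem_filter.1 hb).2
          simp at this
          omega

end Pool.Agent.H651Z.Sch
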