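import Mathlib

/-!
# Preemptive schedules of equal-length jobs on two identical machines
-/

set_option autoImplicit false

namespace Pool.Agent.H651Z.Sch

/-- A piece of a preemptive schedule: `(job, machine, start, end)`. -/
abbrev Piece : Type := ℕ × Bool × ℝ × ℝ

/-- `S` is a preemptive schedule of the jobs `0, ..., n-1` of processing time `p` on two machines:
every piece is a nondegenerate interval of nonnegative times of one of the jobs, two pieces of the
same job or on the same machine do not overlap, and the pieces of each job have total length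
`p`. -/
def Valid (p n : ℕ) (S : List Piece) : Prop :=
  (∀ x ∈ S, x.1 < n ∧ 0 ≤ x.2.2.1 ∧ x.2.2.1 < x.2.2.2) ∧
  S.Pairwise (fun x y => x.1 = y.1 ∨ x.2.1 = y.2.1 → x.2.2.2 ≤ y.2.2.1 ∨ y.2.2.2 ≤ x.2.2.1) ∧
  ∀ j < n, ((S.filter (fun x => x.1 = j)).map (fun x => x.2.2.2 - x.2.2.1)).sum = p

/-- The completion time of job `j`: the largest end of a piece of `j`. -/
noncomputable def compl (S : List Piece) (j : ℕ) : ℝ :=
  ((S.filter (fun x => x.1 = j)).map (fun x => x.2.2.2)).foldr max 0

/-- The total weighted tardiness; job `j` is the `j`-th entry `(w, d)` of `jobs`. -/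
noncomputable def cost (jobs : List (ℕ × ℕ)) (S : List Piece) : ℝ :=
  (jobs.zipIdx.map (fun x => (x.1.1 : ℝ) * max 0 (compl S x.2 - x.1.2))).sum

/-- The schedule written as a list of pieces whose times are given in units of one half. -/
noncomputable def halves (out : List (ℕ × Bool × ℕ × ℕ)) : List Piece :=
  out.map (fun x => (x.1, x.2.1, (x.2.2.1 : ℝ) / 2, (x.2.2.2 : ℝ) / 2))

end Pool.Agent.H651Z.Sch
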