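import Pool.Agent.H651Z.Sch.Defs
import Pool.Agent.H651Z.Sch.DP

/-!
# From a schedule to an admissible half-integral sequence of completion times
-/

set_option autoImplicit false

namespace Pool.Agent.H651Z.Sch

theorem sum_mono_le : ∀ (L : List Piece) (g : ℝ → ℝ) (lo hi : ℝ),
    L.Pairwise (fun x y => x.2.2.2 ≤ y.2.2.1 ∨ y.2.2.2 ≤ x.2.2.1) →
    (∀ x ∈ L, x.2.2.1 ≤ x.2.2.2) → Monotone g → (∀ z, lo ≤ g z ∧ g z ≤ hi) →
    (L.map (fun x => g x.2.2.2 - g x.2.2.1)).sum ≤ hi - lo
  | [], g, lo, hi, _, _, _, h => by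
    have := h 0
    simp only [List.map_nil, List.sum_nil]
    linarith [this.1, this.2]
  | x :: L, g, lo, hi, h1, h2, hg, h => by
    rw [List.pairwise_cons] at h1
    have hx := hg (h2 x (by simp))
    have i1 := sum_mono_le L (fun z => min (g z) (g x.2.2.1)) lo (g x.2.2.1) h1.2
      (fun y hy => h2 y (by simp [hy])) (fun a b hab => min_le_min_right _ (hg hab))
      (fun z => ⟨le_min (h z).1 (h _).1, min_le_right _ _⟩)
    have i2 := sum_mono_le L (fun z => max (g z) (g x.2.2.2)) (g x.2.2.2) hi h1.2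
      (fun y hy => h2 y (by simp [hy])) (fun a b hab => max_le_max_right _ (hg hab))
      (fun z => ⟨le_max_right _ _, max_le (h z).2 (h _).2⟩)
    have i3 : (L.map (fun y => g y.2.2.2 - g y.2.2.1)).sum ≤
        (L.map (fun y => (min (g y.2.2.2) (g x.2.2.1) - min (g y.2.2.1) (g x.2.2.1)) +
          (max (g y.2.2.2) (g x.2.2.2) - max (g y.2.2.1) (g x.2.2.2)))).sum := by
      apply List.sum_le_sum
      intro y hy
      have hy2 := hg (h2 y (by simp [hy]))
      rcases h1.1 y hy with h3 | h3
      · have h4 := hg h3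
        rw [min_eq_right (by linarith), min_eq_right (by linarith), max_eq_left (by linarith),
          max_eq_left (by linarith)]
        linarith
      · have h4 := hg h3
        rw [min_eq_left (by linarith), min_eq_left (by linarith), max_eq_right (by linarith),
          max_eq_right (by linarith)]
        linarith
    rw [List.sum_map_add] at i3
    simp only [List.map_cons, List.sum_cons]
    linarith

theorem sum_filter_ite {α : Type} (q : α → Bool) (f : α → ℝ) (L : List α) :
    ((L.filter q).map f).sum = (L.map (fun x => if q x = true then f x else 0)).sum := by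
  induction L with
  | nil => simp
  | cons a L ih => by_cases h : q a = true <;> simp [h, ih]

theorem foldr_max_nonneg (l : List ℝ) : 0 ≤ l.foldr max 0 := by
  induction l with
  | nil => simp
  | cons a l ih => exact ih.trans (le_max_right _ _)

theorem le_foldr_max {l : List ℝ} {a : ℝ} (h : a ∈ l) : a ≤ l.foldr max 0 := by
  induction l with
  | nil => simp at h
  | cons b l ih =>
    rcases List.mem_cons.1 h with h | h
    · rw [h]; exact le_max_left _ _
    · exact (ih h).trans (le_max_right _ _)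

theorem foldr_max_le {l : List ℝ} {c : ℝ} (hc : 0 ≤ c) (h : ∀ a ∈ l, a ≤ c) :
    l.foldr max 0 ≤ c := by
  induction l with
  | nil => simpa using hc
  | cons b l ih => exact max_le (h b (by simp)) (ih fun a ha => h a (by simp [ha]))

theorem compl_nonneg (S : List Piece) (j : ℕ) : 0 ≤ compl S j := foldr_max_nonneg _

theorem le_compl {S : List Piece} {x : Piece} (h : x ∈ S) : x.2.2.2 ≤ compl S x.1 :=
  le_foldr_max (List.mem_map.2 ⟨x, List.mem_filter.2 ⟨h, by simp⟩, rfl⟩)

theorem total_len {p n : ℕ} {S : List Piece} (h : Valid p n S) : ∀ I : List ℕ, I.Nodup →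
    (∀ j ∈ I, j < n) →
    (S.map (fun x => if x.1 ∈ I then x.2.2.2 - x.2.2.1 else 0)).sum = I.length * p
  | [], _, _ => by simp
  | j :: I, h1, h2 => by
    rw [List.nodup_cons] at h1
    have i1 := total_len h I h1.2 (fun i hi => h2 i (by simp [hi]))
    have i2 := h.2.2 j (h2 j (by simp))
    rw [sum_filter_ite] at i2
    have : (S.map (fun x => if x.1 ∈ j :: I then x.2.2.2 - x.2.2.1 else 0)) =
        S.map (fun x => (if decide (x.1 = j) = true then x.2.2.2 - x.2.2.1 else 0) +
          (if x.1 ∈ I then x.2.2.2 - x.2.2.1 else 0)) := by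
      apply List.map_congr_left
      intro x _
      by_cases a : x.1 = j
      · have : x.1 ∉ I := by rw [a]; exact h1.1
        simp [a, h1.1]
      · simp [a]
    rw [this, List.sum_map_add, i1, i2]
    simp only [List.length_cons]
    push_cast
    ring

theorem capacity {p n : ℕ} {S : List Piece} (h : Valid p n S) (I : List ℕ) (j : ℕ)
    (hI : (j :: I).Nodup) (hn : ∀ i ∈ j :: I, i < n) {A B : ℝ} (hA : 0 ≤ A) (hAB : A ≤ B)
    (h1 : ∀ i ∈ I, compl S i ≤ A) (h2 : compl S j ≤ B) :
    ((I.length + 1 : ℕ) : ℝ) * p ≤ A + B := by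
  have t := total_len h (j :: I) hI hn
  rw [List.length_cons] at t
  rw [← t]
  set g : ℝ → ℝ := fun z => max 0 (min z A) with hg
  set k : ℝ → ℝ := fun z => min B (max z A) with hk
  have mg : Monotone g := fun a b hab => max_le_max_left _ (min_le_min_right _ hab)
  have mk : Monotone k := fun a b hab => min_le_min_left _ (max_le_max_right _ hab)
  have key : ∀ (q : Piece → Bool) (f : ℝ → ℝ) (lo hi : ℝ), Monotone f →
      (∀ z, lo ≤ f z ∧ f z ≤ hi) →
      (∀ x y, q x = true → q y = true → x.1 = y.1 ∨ x.2.1 = y.2.1) →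
      (S.map (fun x => if q x = true then f x.2.2.2 - f x.2.2.1 else 0)).sum ≤ hi - lo := by
    intro q f lo hi hf hb hq
    rw [← sum_filter_ite q (fun x => f x.2.2.2 - f x.2.2.1)]
    refine sum_mono_le _ f lo hi ?_ (fun x hx => (h.1 x (List.mem_filter.1 hx).1).2.2.le) hf hb
    refine (h.2.1.filter q).imp_of_mem ?_
    intro a b ha hb hab
    exact hab (hq a b (List.mem_filter.1 ha).2 (List.mem_filter.1 hb).2)
  have bg : ∀ z, 0 ≤ g z ∧ g z ≤ A := fun z => ⟨le_max_left _ _, max_le hA (min_le_right _ _)⟩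
  have bk : ∀ z, A ≤ k z ∧ k z ≤ B := fun z => ⟨le_min hAB (le_max_right _ _), min_le_left _ _⟩
  have e1 := key (fun x => x.2.1) g 0 A mg bg (fun x y hx hy => Or.inr (hx.trans hy.symm))
  have e2 := key (fun x => !x.2.1) g 0 A mg bg (fun x y hx hy => Or.inr (by
    simp only [Bool.not_eq_eq_eq_not, Bool.not_true] at hx hy
    exact hx.trans hy.symm))
  have e3 := key (fun x => decide (x.1 = j)) k A B mk bk (fun x y hx hy => Or.inl (by
    simp only [decide_eq_true_eq] at hx hy
    exact hx.trans hy.symm))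
  have e4 : (S.map (fun x => if x.1 ∈ j :: I then x.2.2.2 - x.2.2.1 else 0)).sum ≤
      (S.map (fun x => ((if x.2.1 = true then g x.2.2.2 - g x.2.2.1 else 0) +
        (if (!x.2.1) = true then g x.2.2.2 - g x.2.2.1 else 0)) +
        (if decide (x.1 = j) = true then k x.2.2.2 - k x.2.2.1 else 0))).sum := by
    apply List.sum_le_sum
    intro x hx
    obtain ⟨-, x0, x1⟩ := h.1 x hx
    have c := le_compl hx
    have s1 : ((if x.2.1 = true then g x.2.2.2 - g x.2.2.1 else 0) +
        (if (!x.2.1) = true then g x.2.2.2 - g x.2.2.1 else 0)) = g x.2.2.2 - g x.2.2.1 := by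
      cases x.2.1 <;> simp
    rw [s1]
    have m1 := mg x1.le
    have m2 := mk x1.le
    by_cases a : x.1 = j
    · rw [if_pos (by simp [a]), if_pos (by simp [a])]
      rw [a] at c
      simp only [hg, hk]
      rcases le_total x.2.2.1 A with b1 | b1 <;> rcases le_total x.2.2.2 A with b2 | b2
      · rw [min_eq_left b1, min_eq_left b2, max_eq_right b1, max_eq_right b2,
          max_eq_right x0, max_eq_right (by linarith)]
        linarith
      · rw [min_eq_left b1, min_eq_right b2, max_eq_right b1, max_eq_left b2,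
          max_eq_right x0, max_eq_right hA, min_eq_right hAB, min_eq_right (by linarith)]
        linarith
      · linarith
      · rw [min_eq_right b1, min_eq_right b2, max_eq_left b1, max_eq_left b2,
          min_eq_right (by linarith), min_eq_right (by linarith)]
        linarith
    · rw [if_neg (show ¬ decide (x.1 = j) = true by simp [a])]
      by_cases b : x.1 ∈ I
      · rw [if_pos (by simp [b])]
        have := h1 _ b
        simp only [hg]
        rw [min_eq_left (by linarith), min_eq_left (by linarith), max_eq_right x0,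
          max_eq_right (by linarith)]
        linarith
      · rw [if_neg (by simp [a, b])]
        linarith
  rw [List.sum_map_add, List.sum_map_add] at e4
  linarith

theorem fract_ii (c : ℝ) : IntervalIntegrable (fun x : ℝ => Int.fract (x + c)) MeasureTheory.volume 0 1 := by
  have h1 : Monotone (fun x : ℝ => ((⌊x + c⌋ : ℤ) : ℝ)) := fun a b hab =>
    Int.cast_le.2 (Int.floor_le_floor (by linarith))
  have h2 : IntervalIntegrable (fun x : ℝ => x + c) MeasureTheory.volume 0 1 :=
    (continuous_id.add continuous_const).intervalIntegrable _ _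
  exact h2.sub h1.intervalIntegrable

theorem fract_int (c : ℝ) : ∫ x in (0 : ℝ)..1, Int.fract (x + c) = ∫ x in (0 : ℝ)..1, Int.fract x := by
  rw [intervalIntegral.integral_comp_add_right (fun x : ℝ => Int.fract x) c]
  have := (Int.fract_periodic ℝ).intervalIntegral_add_eq c 0
  simpa [add_comm] using this

theorem exists_theta {α : Type} (L : List α) (w y : α → ℝ) : ∃ θ : ℝ, 0 < θ ∧ θ < 1 ∧
    (L.map (fun a => w a * (Int.fract (θ + -y a) - Int.fract (θ + y a)))).sum ≤ 0 := by
  have key : IntervalIntegrable (fun θ : ℝ =>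
      (L.map (fun a => w a * (Int.fract (θ + -y a) - Int.fract (θ + y a)))).sum)
      MeasureTheory.volume 0 1 ∧ ∫ θ in (0 : ℝ)..1,
      (L.map (fun a => w a * (Int.fract (θ + -y a) - Int.fract (θ + y a)))).sum = 0 := by
    induction L with
    | nil => simp
    | cons a L ih =>
      simp only [List.map_cons, List.sum_cons]
      have i1 := ((fract_ii (-y a)).sub (fract_ii (y a))).const_mul (w a)
      refine ⟨i1.add ih.1, ?_⟩
      rw [intervalIntegral.integral_add i1 ih.1, ih.2, intervalIntegral.integral_const_mul,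
        intervalIntegral.integral_sub (fract_ii _) (fract_ii _), fract_int, fract_int]
      simp
  by_contra hc
  push Not at hc
  have := intervalIntegral.intervalIntegral_pos_of_pos_on key.1
    (fun x hx => hc x hx.1 hx.2) zero_lt_one
  linarith [key.2]

/-- rounding to half-integers, in doubled units -/
noncomputable def rd (θ z : ℝ) : ℕ := (⌈z - θ⌉ + ⌊z + θ⌋).toNat

theorem rd_cast {θ z : ℝ} (h0 : 0 < θ) (h1 : θ < 1) (hz : 0 ≤ z) :
    (rd θ z : ℤ) = ⌈z - θ⌉ + ⌊z + θ⌋ := by
  have a : (0 : ℤ) ≤ ⌈z - θ⌉ := by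
    have : (-1 : ℤ) < ⌈z - θ⌉ := Int.lt_ceil.2 (by push_cast; linarith)
    omega
  have b : (0 : ℤ) ≤ ⌊z + θ⌋ := Int.floor_nonneg.2 (by linarith)
  exact Int.toNat_of_nonneg (by omega)

theorem rd_mono (θ : ℝ) {a b : ℝ} (h : a ≤ b) : rd θ a ≤ rd θ b :=
  Int.toNat_le_toNat (add_le_add (Int.ceil_le_ceil (by linarith)) (Int.floor_le_floor (by linarith)))

theorem rd_zero {θ : ℝ} (h0 : 0 < θ) (h1 : θ < 1) : rd θ 0 = 0 := by
  have a : ⌈(0 : ℝ) - θ⌉ ≤ 0 := Int.ceil_le.2 (by push_cast; linarith)
  have b : ⌊(0 : ℝ) + θ⌋ < 1 := Int.floor_lt.2 (by push_cast; linarith)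
  unfold rd
  omega

theorem rd_sum {θ a b : ℝ} (h0 : 0 < θ) (h1 : θ < 1) (ha : 0 ≤ a) (hb : 0 ≤ b) {m : ℕ}
    (h : (m : ℝ) ≤ a + b) : 2 * m ≤ rd θ a + rd θ b := by
  have key : ∀ x y : ℝ, (m : ℝ) ≤ x + y → (m : ℤ) ≤ ⌈x - θ⌉ + ⌊y + θ⌋ := by
    intro x y hxy
    have e1 := Int.le_ceil (x - θ)
    have e2 := Int.lt_floor_add_one (y + θ)
    have : ((m : ℤ) : ℝ) < ((⌈x - θ⌉ + ⌊y + θ⌋ + 1 : ℤ) : ℝ) := by push_cast; linarith
    have := Int.cast_lt.1 this
    omega
  have k1 := key a b h
  have k2 := key b a (by linarith)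
  have r1 := rd_cast h0 h1 ha
  have r2 := rd_cast h0 h1 hb
  omega

theorem rd_cost {θ z : ℝ} (h0 : 0 < θ) (h1 : θ < 1) (hz : 0 ≤ z) (d : ℕ) :
    ((rd θ z - 2 * d : ℕ) : ℝ) ≤ 2 * max 0 (z - d) +
      (Int.fract (θ + -max 0 (z - d)) - Int.fract (θ + max 0 (z - d))) := by
  have r := rd_cast h0 h1 hz
  rcases le_total z d with h | h
  · rw [max_eq_left (by linarith)]
    have a : ⌈z - θ⌉ ≤ (d : ℤ) := Int.ceil_le.2 (by push_cast; linarith)
    have b : ⌊z + θ⌋ < (d : ℤ) + 1 := Int.floor_lt.2 (by push_cast; linarith)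
    rw [show rd θ z - 2 * d = 0 by omega]
    simp
  · rw [max_eq_right (by linarith)]
    have a : (d : ℤ) - 1 < ⌈z - θ⌉ := Int.lt_ceil.2 (by push_cast; linarith)
    have b : (d : ℤ) ≤ ⌊z + θ⌋ := Int.le_floor.2 (by push_cast; linarith)
    have e : ((rd θ z - 2 * d : ℕ) : ℤ) = ⌈z - θ⌉ + ⌊z + θ⌋ - 2 * d := by omega
    have e' : ((rd θ z - 2 * d : ℕ) : ℝ) = (⌈z - θ⌉ : ℝ) + (⌊z + θ⌋ : ℝ) - 2 * d := by
      exact_mod_cast e
    have f1 : Int.fract (θ + (z - d)) = z + θ - ⌊z + θ⌋ := by
      rw [show θ + (z - d) = z + θ - (d : ℕ) by ring, Int.fract_sub_natCast, Int.fract]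
    have f2 : Int.fract (θ + -(z - d)) = -(z - θ) + ⌈z - θ⌉ := by
      rw [show θ + -(z - d) = -(z - θ) + (d : ℕ) by ring, Int.fract_add_natCast, Int.fract,
        Int.floor_neg]
      push_cast
      ring
    rw [e', f1, f2]
    linarith

theorem normalize {P : ℕ} {u : ℕ → ℕ} (h0 : u 0 = 0) (h1 : ∀ k, u k ≤ u (k + 1))
    (h2 : ∀ k, (k + 1) * P ≤ u k + u (k + 1)) : ∃ t, Good P t ∧ ∀ k, t k ≤ u k := by
  let t : ℕ → ℕ := fun k => Nat.rec 0 (fun k a => min (u (k + 1)) (a + P)) k
  have ts : ∀ k, t (k + 1) = min (u (k + 1)) (t k + P) := fun k => rfl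
  have t0 : t 0 = 0 := rfl
  have inv : ∀ k, t k ≤ u k ∧ (k + 1) * P ≤ t k + u (k + 1) ∧ k * P ≤ 2 * t k := by
    intro k
    induction k with
    | zero =>
      have := h2 0
      refine ⟨by omega, by omega, by omega⟩
    | succ k ih =>
      have a := h1 k
      have b := h1 (k + 1)
      have c := h2 (k + 1)
      rw [ts]
      simp only [add_mul] at ih c ⊢
      omega
  refine ⟨t, ⟨t0, fun k => ?_, fun k => ?_, fun k => ?_⟩, fun k => (inv k).1⟩
  · have a := h1 k
    have := inv k
    rw [ts]
    omega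
  · rw [ts]
    omega
  · have := inv k
    rw [ts]
    simp only [add_mul] at this ⊢
    omega

theorem cst_le (T : ℕ) (t : ℕ → ℕ) (u : Job → ℕ) : ∀ (l : List Job) (s : ℕ),
    (∀ (i : ℕ) (h : i < l.length), t (s + i) ≤ u l[i] ∧ t (s + i) ≤ T) →
    cst T t s l ≤ (l.map (fun a => a.1.1 * (u a - 2 * a.1.2))).sum
  | [], _, _ => by simp [cst]
  | j :: l, s, h => by
    simp only [cst, List.map_cons, List.sum_cons]
    refine Nat.add_le_add ?_ (cst_le T t u l (s + 1) fun i hi => ?_)
    · have := h 0 (by simp)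
      simp only [add_zero, List.getElem_cons_zero] at this
      unfold jc dd
      exact Nat.mul_le_mul_left _ (by omega)
    · have := h (i + 1) (by simpa using hi)
      rw [show s + 1 + i = s + (i + 1) by omega]
      simpa using this

theorem zipIdx_nodup (jobs : List (ℕ × ℕ)) : (jobs.zipIdx.map Prod.snd).Nodup := by
  rw [List.zipIdx_map_snd]
  exact List.nodup_range'

theorem zipIdx_lt {jobs : List (ℕ × ℕ)} {a : Job} (h : a ∈ jobs.zipIdx) : a.2 < jobs.length := by
  have : a.2 ∈ jobs.zipIdx.map Prod.snd := List.mem_map.2 ⟨a, h, rfl⟩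
  rw [List.zipIdx_map_snd] at this
  simpa using this

theorem lower {p : ℕ} {jobs : List (ℕ × ℕ)} {S : List Piece} (h : Valid p jobs.length S) {T : ℕ}
    (hT : jobs.length * (2 * p) ≤ T) :
    ∃ (t : ℕ → ℕ) (L : List Job), Good (2 * p) t ∧ L.Perm jobs.zipIdx ∧
      (cst T t 1 L : ℝ) ≤ 2 * cost jobs S := by
  classical
  set L := jobs.zipIdx.mergeSort (fun a b => decide (compl S a.2 ≤ compl S b.2)) with hL
  have hp : L.Perm jobs.zipIdx := List.mergeSort_perm _ _
  have hs : L.Pairwise (fun a b => compl S a.2 ≤ compl S b.2) := by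
    have := List.pairwise_mergeSort (le := fun a b : Job => decide (compl S a.2 ≤ compl S b.2))
      (fun a b c hab hbc => by
        simp only [decide_eq_true_eq] at hab hbc ⊢
        exact hab.trans hbc)
      (fun a b => by simpa using le_total _ _) jobs.zipIdx
    simpa using this
  have hlen : L.length = jobs.length := by simpa using hp.length_eq
  have hnd : (L.map Prod.snd).Nodup := (hp.map _).nodup_iff.2 (zipIdx_nodup jobs)
  set Bm : ℝ := (L.map (fun a => compl S a.2)).foldr max 0 with hBm
  have B0 : 0 ≤ Bm := foldr_max_nonneg _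
  let x : ℕ → ℝ := fun k => match k with
    | 0 => 0
    | k + 1 => if hk : k < L.length then compl S L[k].2 else Bm + (k + 1 : ℕ) * p
  have xs : ∀ k (hk : k < L.length), x (k + 1) = compl S L[k].2 := fun k hk => dif_pos hk
  have xb : ∀ k, ¬ k < L.length → x (k + 1) = Bm + (k + 1 : ℕ) * p := fun k hk => dif_neg hk
  have x0 : ∀ k, 0 ≤ x k := by
    intro k
    cases k with
    | zero => exact le_rfl
    | succ k =>
      by_cases hk : k < L.length
      · rw [xs k hk]; exact compl_nonneg _ _
      · rw [xb k hk]; positivity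
  have xm : ∀ i k (hi : i < L.length), i < k → k ≤ L.length → compl S L[i].2 ≤ x k := by
    intro i k hi hik hk
    obtain ⟨k, rfl⟩ : ∃ k', k = k' + 1 := ⟨k - 1, by omega⟩
    rw [xs k (by omega)]
    rcases Nat.lt_or_ge i k with h1 | h1
    · exact List.pairwise_iff_getElem.1 hs i k hi (by omega) h1
    · have : i = k := by omega
      subst this
      exact le_rfl
  have xle : ∀ k, x k ≤ x (k + 1) := by
    intro k
    cases k with
    | zero => exact x0 1
    | succ k =>
      by_cases hk : k + 1 < L.length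
      · rw [xs k (by omega)]
        exact xm k (k + 1 + 1) (by omega) (by omega) (by omega)
      · rw [xb (k + 1) hk]
        by_cases hk' : k < L.length
        · rw [xs k hk']
          have : compl S L[k].2 ≤ Bm :=
            le_foldr_max (List.mem_map.2 ⟨_, List.getElem_mem hk', rfl⟩)
          have : (0 : ℝ) ≤ ((k + 1 + 1 : ℕ) : ℝ) * p := by positivity
          linarith
        · rw [xb k hk']
          push_cast
          have : (0 : ℝ) ≤ p := by positivity
          linarith
  have xsum : ∀ k, (((k + 1) * p : ℕ) : ℝ) ≤ x k + x (k + 1) := by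
    intro k
    by_cases hk : k < L.length
    · have e : (L.take (k + 1)).map Prod.snd = (L.take k).map Prod.snd ++ [L[k].2] := by
        rw [List.take_succ_eq_append_getElem hk, List.map_append]
        rfl
      have nd : (L[k].2 :: (L.take k).map Prod.snd).Nodup := by
        refine (List.perm_append_singleton _ _).nodup_iff.1 ?_
        rw [← e]
        exact hnd.sublist ((List.take_sublist _ _).map _)
      have c := capacity h ((L.take k).map Prod.snd) L[k].2 nd (by
          intro i hi
          rcases List.mem_cons.1 hi with hi | hi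
          · rw [hi]
            exact zipIdx_lt (hp.subset (List.getElem_mem hk))
          · obtain ⟨a, ha, rfl⟩ := List.mem_map.1 hi
            exact zipIdx_lt (hp.subset (List.mem_of_mem_take ha))) (x0 k) (xle k) (by
          intro i hi
          obtain ⟨a, ha, rfl⟩ := List.mem_map.1 hi
          obtain ⟨m, hm, rfl⟩ := List.getElem_of_mem ha
          rw [List.getElem_take]
          rw [List.length_take] at hm
          exact xm m k (by omega) (by omega) (by omega)) (xs k hk).ge
      rw [List.length_map, List.length_take, min_eq_left hk.le] at c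
      exact_mod_cast c
    · rw [xb k hk]
      have := x0 k
      push_cast
      linarith
  obtain ⟨θ, h0, h1, hθ⟩ := exists_theta L (fun a => (a.1.1 : ℝ))
    (fun a => max 0 (compl S a.2 - a.1.2))
  obtain ⟨t, ht, htu⟩ := normalize (P := 2 * p) (u := fun k => rd θ (x k)) (rd_zero h0 h1)
    (fun k => rd_mono θ (xle k)) (fun k => by
      have := rd_sum h0 h1 (x0 k) (x0 (k + 1)) (xsum k)
      rw [show (k + 1) * (2 * p) = 2 * ((k + 1) * p) by ring]
      exact this)
  refine ⟨t, L, ht, hp, ?_⟩
  have c1 := cst_le T t (fun a => rd θ (compl S a.2)) L 1 (by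
    intro i hi
    rw [add_comm 1 i]
    refine ⟨?_, ?_⟩
    · have := htu (i + 1)
      rwa [xs i hi] at this
    · exact (ht.bound _).trans ((Nat.mul_le_mul_right _ (by omega)).trans hT))
  have c2 : cost jobs S = (L.map (fun x => (x.1.1 : ℝ) * max 0 (compl S x.2 - x.1.2))).sum :=
    ((hp.map _).sum_eq).symm
  have c3 : (((L.map (fun a => a.1.1 * (rd θ (compl S a.2) - 2 * a.1.2))).sum : ℕ) : ℝ) ≤
      (L.map (fun a => 2 * ((a.1.1 : ℝ) * max 0 (compl S a.2 - a.1.2)) +
        (a.1.1 : ℝ) * (Int.fract (θ + -max 0 (compl S a.2 - a.1.2)) -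
          Int.fract (θ + max 0 (compl S a.2 - a.1.2))))).sum := by
    rw [Nat.cast_list_sum, List.map_map]
    apply List.sum_le_sum
    intro a _
    have := mul_le_mul_of_nonneg_left (rd_cost h0 h1 (compl_nonneg S a.2) a.1.2)
      (show (0 : ℝ) ≤ a.1.1 by positivity)
    simp only [Function.comp_apply, Nat.cast_mul]
    linarith
  rw [List.sum_map_add, List.sum_map_mul_left] at c3
  have c4 : (cst T t 1 L : ℝ) ≤
      (((L.map (fun a => a.1.1 * (rd θ (compl S a.2) - 2 * a.1.2))).sum : ℕ) : ℝ) := by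
    exact_mod_cast c1
  rw [c2]
  linarith

end Pool.Agent.H651Z.Sch
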