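import Pool.Agent.H651Z.Sch.Real

/-!
# From completion times to a schedule; the algorithm and its correctness
-/

set_option autoImplicit false

namespace Pool.Agent.H651Z.Sch

abbrev NP : Type := ℕ × Bool × ℕ × ℕ

def mk (P : ℕ) : ℕ → ℕ → List (Job × ℕ) → List NP
  | _, _, [] => []
  | k, a, x :: l => (x.1.2, true, a, x.2) :: (x.1.2, false, k * P - a, (k + 1) * P - x.2) ::
      mk P (k + 1) x.2 l

def two (P : ℕ) (y : ((Job × ℕ) × ℕ) × ℕ) : List NP :=
  [(y.1.1.1.2, true, y.1.2, y.1.1.2), (y.1.1.1.2, false, y.2 * P - y.1.2, (y.2 + 1) * P - y.1.1.2)]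

theorem mk_eq (P : ℕ) : ∀ (w : List (Job × ℕ)) (k a : ℕ),
    ((w.zip (a :: w.map Prod.snd)).zipIdx k).flatMap (two P) = mk P k a w
  | [], _, _ => by simp [mk]
  | x :: l, k, a => by
    have := mk_eq P l (k + 1) x.2
    simp only [List.map_cons, List.zip_cons_cons, List.zipIdx_cons, List.flatMap_cons, mk]
    rw [this]
    rfl

def sched (P : ℕ) (w : List (Job × ℕ)) : List NP :=
  (((w.zip (0 :: w.map Prod.snd)).zipIdx).flatMap (two P)).filter
    (fun x => decide (x.2.2.1 < x.2.2.2))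

theorem mk_mem {P e b : ℕ} : ∀ (w : List (Job × ℕ)) (k a : ℕ), Chain P k a w e b → a ≤ k * P →
    ∀ y ∈ mk P k a w, (y.2.1 = true → a ≤ y.2.2.1) ∧ (y.2.1 = false → k * P - a ≤ y.2.2.1) ∧
      y.2.2.1 ≤ y.2.2.2 ∧ ∃ x ∈ w, y.1 = x.1.2 ∧ y.2.2.2 ≤ x.2
  | [], _, _, _, _, y, hy => by simp [mk] at hy
  | x :: l, k, a, h, ha, y, hy => by
    obtain ⟨h1, h2, h3, h4⟩ := h
    simp only [mk, List.mem_cons] at hy
    simp only [add_mul, one_mul] at h3
    rcases hy with rfl | rfl | hy
    · exact ⟨fun _ => le_rfl, by simp, h1, x, by simp, rfl, le_rfl⟩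
    · refine ⟨by simp, fun _ => le_rfl, ?_, x, by simp, rfl, ?_⟩
      · simp only [add_mul, one_mul]; omega
      · simp only [add_mul, one_mul]; omega
    · obtain ⟨a1, a2, a3, z, hz, a4⟩ := mk_mem l (k + 1) x.2 h4 (by rw [add_mul]; omega) y hy
      refine ⟨fun hh => h1.trans (a1 hh), fun hh => le_trans ?_ (a2 hh), a3, z, by simp [hz], a4⟩
      simp only [add_mul, one_mul]; omega

theorem mk_pairwise {P e b : ℕ} : ∀ (w : List (Job × ℕ)) (k a : ℕ), Chain P k a w e b →
    a ≤ k * P → (w.map (fun x => x.1.2)).Nodup →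
    (mk P k a w).Pairwise (fun x y => x.1 = y.1 ∨ x.2.1 = y.2.1 →
      x.2.2.2 ≤ y.2.2.1 ∨ y.2.2.2 ≤ x.2.2.1)
  | [], _, _, _, _, _ => by simp [mk]
  | x :: l, k, a, h, ha, hn => by
    obtain ⟨h1, h2, h3, h4⟩ := h
    rw [List.map_cons, List.nodup_cons] at hn
    have hx : x.2 ≤ (k + 1) * P := by rw [add_mul]; omega
    have hm := mk_mem l (k + 1) x.2 h4 hx
    have hne : ∀ y ∈ mk P (k + 1) x.2 l, x.1.2 ≠ y.1 := by
      intro y hy he
      obtain ⟨-, -, -, z, hz, a4, -⟩ := hm y hy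
      exact hn.1 (List.mem_map.2 ⟨z, hz, by rw [← a4, he]⟩)
    simp only [mk, List.pairwise_cons, List.mem_cons]
    refine ⟨?_, ?_, mk_pairwise l (k + 1) x.2 h4 hx hn.2⟩
    · rintro y (rfl | hy) hh
      · right
        dsimp only
        omega
      · rcases hh with hh | hh
        · exact absurd hh (hne y hy)
        · exact Or.inl ((hm y hy).1 hh.symm)
    · rintro y hy hh
      rcases hh with hh | hh
      · exact absurd hh (hne y hy)
      · exact Or.inl ((hm y hy).2.1 hh.symm)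

theorem mk_len {P e b : ℕ} (j : ℕ) : ∀ (w : List (Job × ℕ)) (k a : ℕ), Chain P k a w e b →
    a ≤ k * P → (w.map (fun x => x.1.2)).Nodup →
    ((mk P k a w).map (fun y => if y.1 = j then y.2.2.2 - y.2.2.1 else 0)).sum =
      if j ∈ w.map (fun x => x.1.2) then P else 0
  | [], _, _, _, _, _ => by simp [mk]
  | x :: l, k, a, h, ha, hn => by
    obtain ⟨h1, h2, h3, h4⟩ := h
    rw [List.map_cons, List.nodup_cons] at hn
    have hx : x.2 ≤ (k + 1) * P := by rw [add_mul]; omega
    have ih := mk_len j l (k + 1) x.2 h4 hx hn.2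
    simp only [mk, List.map_cons, List.sum_cons]
    rw [ih]
    by_cases hj : x.1.2 = j
    · subst hj
      rw [if_pos rfl, if_pos rfl, if_neg hn.1, if_pos (by simp)]
      simp only [add_mul, one_mul] at hx h3 ⊢
      omega
    · rw [if_neg hj, if_neg hj]
      have : j ∈ x.1.2 :: l.map (fun x => x.1.2) ↔ j ∈ l.map (fun x => x.1.2) := by
        rw [List.mem_cons]
        exact ⟨fun hh => hh.resolve_left (fun h' => hj h'.symm), Or.inr⟩
      simp only [this, zero_add]

theorem halves_len (j : ℕ) : ∀ l : List NP, (∀ y ∈ l, y.2.2.1 ≤ y.2.2.2) →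
    (((halves (l.filter (fun x => decide (x.2.2.1 < x.2.2.2)))).filter (fun x => x.1 = j)).map
      (fun x => x.2.2.2 - x.2.2.1)).sum =
      (((l.map (fun y => if y.1 = j then y.2.2.2 - y.2.2.1 else 0)).sum : ℕ) : ℝ) / 2
  | [], _ => by simp [halves]
  | y :: l, h => by
    have ih := halves_len j l (fun z hz => h z (by simp [hz]))
    have hy := h y (by simp)
    unfold halves at ih ⊢
    simp only [List.map_cons, List.sum_cons, Nat.cast_add, add_div]
    rw [← ih]
    by_cases a : y.2.2.1 < y.2.2.2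
    · rw [List.filter_cons_of_pos (by simpa using a), List.map_cons]
      by_cases b : y.1 = j
      · rw [List.filter_cons_of_pos (by simpa using b), List.map_cons, List.sum_cons, if_pos b,
          Nat.cast_sub hy]
        dsimp only
        ring
      · rw [List.filter_cons_of_neg (by simpa using b), if_neg b]
        simp
    · rw [List.filter_cons_of_neg (by simpa using a), show y.2.2.2 - y.2.2.1 = 0 by omega]
      simp

theorem upper {p T e b : ℕ} {jobs : List (ℕ × ℕ)} {w : List (Job × ℕ)}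
    (hc : Chain (2 * p) 0 0 w e b) (hp : (w.map Prod.fst).Perm jobs.zipIdx) :
    Valid p jobs.length (halves (sched (2 * p) w)) ∧
      2 * cost jobs (halves (sched (2 * p) w)) ≤ wc T w := by
  have hn : (w.map (fun x => x.1.2)).Nodup := by
    have := (hp.map Prod.snd).nodup_iff.2 (zipIdx_nodup jobs)
    rwa [List.map_map] at this
  have hm := mk_mem w 0 0 hc (by omega)
  unfold sched
  rw [mk_eq]
  refine ⟨⟨?_, ?_, ?_⟩, ?_⟩
  · intro x hx
    obtain ⟨y, hy, rfl⟩ := List.mem_map.1 hx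
    obtain ⟨hy, hy2⟩ := List.mem_filter.1 hy
    obtain ⟨-, -, -, z, hz, a4, -⟩ := hm y hy
    have hy3 : (y.2.2.1 : ℝ) < y.2.2.2 := by exact_mod_cast (by simpa using hy2)
    refine ⟨?_, by positivity, by dsimp only; linarith⟩
    dsimp only
    rw [a4]
    exact zipIdx_lt (hp.subset (List.mem_map.2 ⟨z, hz, rfl⟩))
  · unfold halves
    rw [List.pairwise_map]
    refine ((mk_pairwise w 0 0 hc (by omega) hn).filter _).imp ?_
    intro x y hxy hh
    rcases hxy hh with h1 | h1
    · left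
      have : (x.2.2.2 : ℝ) ≤ y.2.2.1 := by exact_mod_cast h1
      dsimp only
      linarith
    · right
      have : (y.2.2.2 : ℝ) ≤ x.2.2.1 := by exact_mod_cast h1
      dsimp only
      linarith
  · intro j hj
    rw [halves_len j _ (fun y hy => (hm y hy).2.2.1), mk_len j w 0 0 hc (by omega) hn, if_pos]
    · push_cast
      ring
    · have h1 : j ∈ jobs.zipIdx.map Prod.snd := by
        rw [List.zipIdx_map_snd]
        simpa using hj
      have h2 := (hp.map Prod.snd).symm.subset h1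
      rwa [List.map_map] at h2
  · unfold cost wc
    rw [← (hp.map _).sum_eq, List.map_map, Nat.cast_list_sum, List.map_map,
      ← List.sum_map_mul_left]
    apply List.sum_le_sum
    intro x hx
    have h1 : compl (halves ((mk (2 * p) 0 0 w).filter
        (fun x => decide (x.2.2.1 < x.2.2.2)))) x.1.2 ≤ (x.2 : ℝ) / 2 := by
      refine foldr_max_le (by positivity) ?_
      intro c hc
      obtain ⟨u, hu, rfl⟩ := List.mem_map.1 hc
      obtain ⟨hu, hu2⟩ := List.mem_filter.1 hu
      obtain ⟨y, hy, rfl⟩ := List.mem_map.1 hu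
      obtain ⟨-, -, -, z, hz, a4, a5⟩ := hm y (List.mem_filter.1 hy).1
      have e : z = x := List.inj_on_of_nodup_map hn hz hx (by
        simp only [decide_eq_true_eq] at hu2
        exact a4.symm.trans hu2)
      rw [e] at a5
      have : (y.2.2.2 : ℝ) ≤ x.2 := by exact_mod_cast a5
      dsimp only
      linarith
    simp only [Function.comp_apply, jc, Nat.cast_mul]
    have h2 : x.2 ≤ (x.2 - dd T x.1) + 2 * x.1.1.2 := by unfold dd; omega
    have h3 : (x.2 : ℝ) ≤ ((x.2 - dd T x.1 : ℕ) : ℝ) + 2 * x.1.1.2 := by exact_mod_cast h2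
    have h4 : (0 : ℝ) ≤ ((x.2 - dd T x.1 : ℕ) : ℝ) := by positivity
    have h5 : max 0 (compl (halves ((mk (2 * p) 0 0 w).filter
        (fun x => decide (x.2.2.1 < x.2.2.2)))) x.1.2 - x.1.1.2) ≤
        ((x.2 - dd T x.1 : ℕ) : ℝ) / 2 := max_le (by linarith) (by linarith)
    have h6 := mul_le_mul_of_nonneg_left h5 (show (0 : ℝ) ≤ x.1.1.1 by positivity)
    linarith

def fin (T : ℕ) (x : Ent) : Bool :=
  decide (x.1.1 = 0) && decide (x.1.2.1 = T + 1) && decide (x.1.2.2.1 = 0) &&
    decide (x.1.2.2.2.2.1 = 0)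

def hor (p : ℕ) (jobs : List (ℕ × ℕ)) : ℕ := (jobs.length + 1) * (2 * p)

def wit (p : ℕ) (jobs : List (ℕ × ℕ)) : List (Job × ℕ) :=
  (best (hor p jobs) ((dp (2 * p) (hor p jobs) (List.range (hor p jobs + 2))
    (srt jobs.zipIdx)).filter (fin (hor p jobs)))).flatMap (fun x => x.2)

def sol (p : ℕ) (jobs : List (ℕ × ℕ)) : List NP := sched (2 * p) (wit p jobs)

def opt (p : ℕ) (jobs : List (ℕ × ℕ)) : ℕ := wc (hor p jobs) (wit p jobs)

theorem filter_all (T : ℕ) (H : List Job) : H.filter (inr T 0 (T + 1)) = H := by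
  rw [List.filter_eq_self]
  intro j _
  have : dd T j ≤ T := min_le_right _ _
  simp only [inr, Bool.and_eq_true, decide_eq_true_eq]
  omega

theorem sol_spec {p : ℕ} (hp : 1 ≤ p) (jobs : List (ℕ × ℕ)) :
    Valid p jobs.length (halves (sol p jobs)) ∧ 2 * cost jobs (halves (sol p jobs)) ≤ opt p jobs ∧
      ∀ S, Valid p jobs.length S → (opt p jobs : ℝ) ≤ 2 * cost jobs S := by
  set T := hor p jobs with hT
  have hT' : T = (jobs.length + 1) * (2 * p) := rfl
  set F := (dp (2 * p) T (List.range (T + 2)) (srt jobs.zipIdx)).filter (fin T) with hF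
  have hs := srt_spec jobs.zipIdx
  have key : ∀ (t : ℕ → ℕ) (L : List Job), Good (2 * p) t → L.Perm jobs.zipIdx →
      ∃ y ∈ F, wc T y.2 ≤ cst T t 1 L := by
    intro t L ht hL
    have hl : L.length = jobs.length := by simpa using hL.length_eq
    obtain ⟨y, hy, hy1, hy2⟩ := compl_dp (T := T) (M := T + 2) (N := jobs.length + 1) ht
      (by nlinarith) (by omega) _ hs.2 0 (T + 1) 0 L (by omega) (by omega) (by omega)
      (by rw [filter_all]; exact hL.trans hs.1.symm)
    refine ⟨y, List.mem_filter.2 ⟨hy, ?_⟩, hy2⟩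
    simp [fin, hy1, ht.zero]
  obtain ⟨t₀, ht₀, -⟩ := normalize (P := 2 * p) (u := fun k => k * (2 * p)) (by simp)
    (fun k => Nat.mul_le_mul_right _ (by omega)) (fun k => by omega)
  obtain ⟨y₀, hy₀, -⟩ := key t₀ _ ht₀ (List.Perm.refl _)
  obtain ⟨x, hx, -⟩ := best_ex (T := T) hy₀
  have hb : best T F = [x] := by
    have h1 := best_length (T := T) F
    match hh : best T F, h1, hx with
    | [z], _, hx => rw [List.mem_singleton.1 hx]
  have hw : wit p jobs = x.2 := by
    unfold wit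
    rw [← hT, ← hF, hb]
    simp
  obtain ⟨hx1, hx2⟩ := best_sub hx
  obtain ⟨hx3, hx4⟩ := List.mem_filter.1 hx1
  simp only [fin, Bool.and_eq_true, decide_eq_true_eq] at hx4
  obtain ⟨-, -, a3, a4, -⟩ := sound_dp _ _ _ _ x hx3
  rw [hx4.1.1.1, hx4.1.1.2, filter_all] at a3
  rw [hx4.1.2, hx4.2] at a4
  have hu := upper (T := T) a4 (a3.trans hs.1)
  unfold sol opt
  rw [hw, ← hT]
  refine ⟨hu.1, hu.2, fun S hS => ?_⟩
  obtain ⟨t, L, ht, hL, hc⟩ := lower hS (T := T) (by rw [hT', add_mul]; omega)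
  obtain ⟨y, hy, hy2⟩ := key t L ht hL
  have : (wc T x.2 : ℝ) ≤ cst T t 1 L := by exact_mod_cast (hx2 y hy).trans hy2
  linarith

end Pool.Agent.H651Z.Sch
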