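import Pool.Agent.H651Z.Sch.Sched
import Pool.Agent.H671R2.PolyAuto
import Pool.Agent.NPC.Dec

/-!
# The algorithm runs in polynomial time
-/

set_option autoImplicit false

namespace Pool.Agent.H651Z.Sch

open Pool.Agent.NPC

variable {α : Type} [TEnc α]

@[fun_prop] theorem poly_dd {T : α → ℕ} {j : α → Job} (hT : Poly T) (hj : Poly j) :
    Poly (fun a => dd (T a) (j a)) := by
  unfold dd; fun_prop

@[fun_prop] theorem poly_jc {T t : α → ℕ} {j : α → Job} (hT : Poly T) (hj : Poly j) (ht : Poly t) :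
    Poly (fun a => jc (T a) (j a) (t a)) := by
  unfold jc; fun_prop

@[fun_prop] theorem poly_wc {T : α → ℕ} {w : α → List (Job × ℕ)} (hT : Poly T) (hw : Poly w) :
    Poly (fun a => wc (T a) (w a)) := by
  unfold wc; fun_prop

@[fun_prop] theorem poly_states {R : α → List ℕ} (hR : Poly R) :
    Poly (fun a => states (R a)) := by
  unfold states; fun_prop

@[fun_prop] theorem poly_best {T : α → ℕ} {l : α → List Ent} (hT : Poly T) (hl : Poly l) :
    Poly (fun a => best (T a) (l a)) := by
  unfold best; fun_prop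

@[fun_prop] theorem poly_okb (P : ℕ) {s : α → St} (hs : Poly s) :
    Poly (fun a => okb P (s a)) := by
  unfold okb; fun_prop

@[fun_prop] theorem poly_base (P : ℕ) {R : α → List ℕ} (hR : Poly R) :
    Poly (fun a => base P (R a)) := by
  unfold base; fun_prop

@[fun_prop] theorem poly_compat {s x y : α → St} (hs : Poly s) (hx : Poly x) (hy : Poly y) :
    Poly (fun a => compat (s a) (x a) (y a)) := by
  unfold compat; fun_prop

@[fun_prop] theorem poly_inr {T lo hi : α → ℕ} {j : α → Job} (hT : Poly T) (h1 : Poly lo)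
    (h2 : Poly hi) (hj : Poly j) : Poly (fun a => inr (T a) (lo a) (hi a) (j a)) := by
  unfold inr; fun_prop

@[fun_prop] theorem poly_cands {T : α → ℕ} {tb : α → List Ent} {j : α → Job} {s : α → St}
    (hT : Poly T) (htb : Poly tb) (hj : Poly j) (hs : Poly s) :
    Poly (fun a => cands (T a) (tb a) (j a) (s a)) := by
  unfold cands; fun_prop

@[fun_prop] theorem poly_step {T : α → ℕ} {R : α → List ℕ} {tb : α → List Ent} {j : α → Job}
    (hT : Poly T) (hR : Poly R) (htb : Poly tb) (hj : Poly j) :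
    Poly (fun a => step (T a) (R a) (tb a) (j a)) := by
  unfold step; fun_prop

theorem poly_dp0 (P : ℕ) : Poly (fun a : ℕ × List ℕ × List Job => dp P a.1 a.2.1 a.2.2) := by
  obtain ⟨q, hq⟩ := (poly_states (R := fun a : ℕ × List ℕ × List Job => a.2.1)
    (by fun_prop)).sz_le
  refine Poly.foldl (l := fun a : ℕ × List ℕ × List Job => a.2.2)
    (s := fun a => base P a.2.1) (F := fun a tb j => step a.1 a.2.1 tb j) (by fun_prop)
    (by fun_prop) (by fun_prop)
    (q * (q + Polynomial.X * (2 * Polynomial.X + 2) + 3) + 1) ?_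
  rintro ⟨T, R, H⟩ k -
  have h1 := length_dp P T R (H.take k)
  have h2 := sound_dp P T R (H.take k)
  have h3 := hq (T, R, H)
  have h4 := length_lt_sz (states R)
  have h5 := length_lt_sz H
  set N := sz ((T, R, H) : ℕ × List ℕ × List Job) with hN
  have hN' : N = sz T + (sz R + sz H + 1) + 1 := by rw [hN]; simp
  have h6 := sz_le_length_mul (dp P T R (H.take k)) (q.eval N + N * (2 * N + 2) + 2) (by
    intro x hx
    obtain ⟨a1, -, a3, -, a5⟩ := h2 x hx
    have b1 := sz_le_of_mem a1
    have b2 : x.2.length ≤ H.length := by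
      have := a3.length_eq
      rw [List.length_map] at this
      rw [this]
      exact (List.length_filter_le _ _).trans (by simp)
    have b3 := sz_le_length_mul x.2 (2 * N + 1) (by
      intro y hy
      have c1 := sz_le_of_mem (a5 y hy)
      have c2 := sz_le_of_mem (List.mem_of_mem_take (List.mem_filter.1
        (a3.subset (List.mem_map.2 ⟨y, hy, rfl⟩))).1)
      have c3 : sz y = sz y.1 + sz y.2 + 1 := sz_pair y.1 y.2
      omega)
    have b4 : sz x = sz x.1 + sz x.2 + 1 := sz_pair x.1 x.2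
    have b5 : x.2.length * (2 * N + 1 + 1) ≤ N * (2 * N + 2) :=
      Nat.mul_le_mul (by omega) (by omega)
    dsimp only at h3
    omega)
  simp only [Polynomial.eval_add, Polynomial.eval_mul, Polynomial.eval_X, Polynomial.eval_ofNat,
    Polynomial.eval_one]
  refine h6.trans (Nat.add_le_add_right (Nat.mul_le_mul ?_ (by omega)) _)
  dsimp only at h3
  omega

@[fun_prop] theorem poly_dp (P : ℕ) {T : α → ℕ} {R : α → List ℕ} {H : α → List Job}
    (hT : Poly T) (hR : Poly R) (hH : Poly H) : Poly (fun a => dp P (T a) (R a) (H a)) :=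
  (NPC.Poly.comp (g := fun a : ℕ × List ℕ × List Job => dp P a.1 a.2.1 a.2.2)
    (f := fun a => (T a, R a, H a)) (poly_dp0 P) (Poly.pair hT (Poly.pair hR hH))).congr
    fun _ => rfl

@[fun_prop] theorem poly_ins {l : α → List Job} {j : α → Job} (hl : Poly l) (hj : Poly j) :
    Poly (fun a => ins (l a) (j a)) := by
  unfold ins; fun_prop

theorem poly_srt0 : Poly srt := by
  refine Poly.foldl (l := fun a : List Job => a) (s := fun _ => []) (F := fun _ l j => ins l j)
    (by fun_prop) (by fun_prop) (by fun_prop) (Polynomial.X * (Polynomial.X + 1) + 1) ?_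
  intro H k _
  have h1 := (srt_spec (H.take k)).1
  have h2 := length_lt_sz H
  have h3 := sz_le_length_mul (srt (H.take k)) (sz H) (fun y hy =>
    (sz_le_of_mem (List.mem_of_mem_take (h1.subset hy))).le)
  have h4 : (srt (H.take k)).length ≤ H.length := by rw [h1.length_eq]; simp
  simp only [Polynomial.eval_add, Polynomial.eval_mul, Polynomial.eval_X, Polynomial.eval_one]
  exact h3.trans (Nat.add_le_add_right (Nat.mul_le_mul_right _ (by omega)) _)

@[fun_prop] theorem poly_srt {l : α → List Job} (hl : Poly l) : Poly (fun a => srt (l a)) :=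
  poly_srt0.comp hl

@[fun_prop] theorem poly_two (P : ℕ) {y : α → ((Job × ℕ) × ℕ) × ℕ} (hy : Poly y) :
    Poly (fun a => two P (y a)) := by
  unfold two; fun_prop

@[fun_prop] theorem poly_sched (P : ℕ) {w : α → List (Job × ℕ)} (hw : Poly w) :
    Poly (fun a => sched P (w a)) := by
  unfold sched; fun_prop

@[fun_prop] theorem poly_fin {T : α → ℕ} {x : α → Ent} (hT : Poly T) (hx : Poly x) :
    Poly (fun a => fin (T a) (x a)) := by
  unfold fin; fun_prop

@[fun_prop] theorem poly_hor (p : ℕ) {l : α → List (ℕ × ℕ)} (hl : Poly l) :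
    Poly (fun a => hor p (l a)) := by
  unfold hor; fun_prop

theorem poly_wit (p : ℕ) : Poly (wit p) := by
  have h : Poly (fun a : List (ℕ × ℕ) => List.range (hor p a + 2)) :=
    UPoly.range (UPoly.add (UPoly.mul (UPoly.add (UPoly.length Poly.id) (UPoly.const 1))
      (UPoly.const (2 * p))) (UPoly.const 2))
  unfold wit; fun_prop

theorem poly_sol (p : ℕ) : Poly (sol p) := poly_sched _ (poly_wit p)

theorem poly_opt (p : ℕ) : Poly (opt p) := poly_wc (poly_hor p Poly.id) (poly_wit p)

theorem poly_int : Poly (fun K : ℤ => (decide (K < 0), K.natAbs)) :=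
  Poly.of_toT (Poly.toT' (Poly.id (α := ℤ)))

def test (p : ℕ) (a : List (ℕ × ℕ) × ℤ) : Bool :=
  !(decide (a.2 < 0)) && decide (opt p a.1 ≤ 2 * a.2.natAbs)

theorem poly_test (p : ℕ) : Poly (test p) := by
  have h1 : Poly (fun a : List (ℕ × ℕ) × ℤ => decide (a.2 < 0)) :=
    Poly.fst (poly_int.comp (Poly.snd Poly.id))
  have h2 : Poly (fun a : List (ℕ × ℕ) × ℤ => a.2.natAbs) :=
    Poly.snd (poly_int.comp (Poly.snd Poly.id))
  exact Poly.and (Poly.not h1) (Poly.decide_le ((poly_opt p).comp (Poly.fst Poly.id))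
    (NPC.Poly.mul (NPC.Poly.const 2) h2))

theorem test_spec {p : ℕ} (hp : 1 ≤ p) (a : List (ℕ × ℕ) × ℤ) :
    (∃ S, Valid p a.1.length S ∧ cost a.1 S ≤ (a.2 : ℝ)) ↔ test p a = true := by
  obtain ⟨h1, h2, h3⟩ := sol_spec hp a.1
  simp only [test, Bool.and_eq_true, Bool.not_eq_eq_eq_not, Bool.not_true, decide_eq_false_iff_not,
    decide_eq_true_eq]
  constructor
  · rintro ⟨S, hS, hc⟩
    have h4 := h3 S hS
    have h5 : ((opt p a.1 : ℤ) : ℝ) ≤ ((2 * a.2 : ℤ) : ℝ) := by push_cast; linarith
    have h6 := Int.cast_le.1 h5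
    omega
  · rintro ⟨h4, h5⟩
    refine ⟨_, h1, ?_⟩
    have h6 : (opt p a.1 : ℤ) ≤ 2 * a.2 := by omega
    have h7 : ((opt p a.1 : ℤ) : ℝ) ≤ ((2 * a.2 : ℤ) : ℝ) := Int.cast_le.2 h6
    push_cast at h7
    linarith

end Pool.Agent.H651Z.Sch
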